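import Pool.Agent.N773.BTWA2

set_option autoImplicit false

/-!
# A simple submodule of the eigenspace: the version for `HT`
-/

noncomputable section

namespace Pool.Agent.N773.BTWA

open Pool.Agent.N208.BT

/-- **Existence of a simple submodule.** -/
theorem main : Pool.Agent.N208.BT.S_WA := fun g A z al h =>
  Pool.Agent.N773.BTWA2.main g A z al
    { mem := h.mem
      cen := h.cen
      skew := h.skew
      gen := fun P hP hc => by
        obtain ⟨q, hq⟩ := h.gen P hP hc
        exact ⟨q, by rw [hq]⟩
      ne := h.ne
      ex := h.ex
      simple := h.simple }

end Pool.Agent.N773.BTWA
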