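import Pool.Agent.TH268.PD.Lim
import Pool.Agent.TH268.PD.Unif

/-! Positivity of the components of the Poisson-Dirichlet law (project LN, helper773). -/

set_option autoImplicit false

open MeasureTheory

namespace Pool.Agent.N795.LN

namespace PDpos773

open Pool.Agent.TH268.PD Pool.Agent.TH268.PD.Lim

lemma stick_eq (U : ℕ → unitInterval) (i : ℕ) : stick U i = tY U i := rfl

/-- the event that the first numbers lie in `[1/4, 1/2]` -/
def A (i : ℕ) : Set (ℕ → unitInterval) :=
  Set.pi (Finset.range (i + 1) : Set ℕ)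
    (fun _ => Set.Icc (⟨1 / 4, by norm_num, by norm_num⟩ : unitInterval)
      ⟨1 / 2, by norm_num, by norm_num⟩)

lemma A_meas (i : ℕ) : MeasurableSet (A i) :=
  MeasurableSet.pi (Finset.countable_toSet _) fun _ _ => measurableSet_Icc

lemma A_pos (i : ℕ) : 0 < mu (A i) := by
  unfold A
  rw [Measure.infinitePi_pi _ (fun _ _ => measurableSet_Icc)]
  rw [pos_iff_ne_zero, Finset.prod_ne_zero_iff]
  intro j _
  rw [unitInterval.volume_Icc]
  refine (ENNReal.ofReal_pos.2 ?_).ne'
  norm_num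

lemma mem_A {U : ℕ → unitInterval} {i : ℕ} (h : U ∈ A i) {j : ℕ} (hj : j < i + 1) :
    (1 / 4 : ℝ) ≤ U j ∧ (U j : ℝ) ≤ 1 / 2 := by
  have := h j (Finset.mem_coe.2 (Finset.mem_range.2 hj))
  exact ⟨this.1, this.2⟩

lemma stick_ge {U : ℕ → unitInterval} {i : ℕ} (h : U ∈ A i) :
    (1 / 4 : ℝ) * (1 / 2) ^ i ≤ tY U i := by
  have hg := good_encard (Y U) (Y_nonneg U) (Y_le_one U)
  refine le_csSup ⟨1, hg.ub i⟩ ?_
  show (((i : ℕ) + 1 : ℕ) : ℕ∞) ≤ Set.encard {j : ℕ | (1 / 4 : ℝ) * (1 / 2) ^ i ≤ Y U j}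
  have h1 : ((Finset.range (i + 1) : Finset ℕ) : Set ℕ) ⊆
      {j : ℕ | (1 / 4 : ℝ) * (1 / 2) ^ i ≤ Y U j} := by
    intro j hj
    have hj' : j < i + 1 := Finset.mem_range.1 (Finset.mem_coe.1 hj)
    show (1 / 4 : ℝ) * (1 / 2) ^ i ≤ Y U j
    unfold Y
    have h2 : (1 / 2 : ℝ) ^ i ≤ ∏ l ∈ Finset.range j, (1 - (U l : ℝ)) := by
      have h3 : (1 / 2 : ℝ) ^ j ≤ ∏ l ∈ Finset.range j, (1 - (U l : ℝ)) := by
        calc (1 / 2 : ℝ) ^ j = ∏ _l ∈ Finset.range j, (1 / 2 : ℝ) := by
              rw [Finset.prod_const, Finset.card_range]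
          _ ≤ _ := by
              refine Finset.prod_le_prod (fun _ _ => by norm_num) fun l hl => ?_
              have := (mem_A h (lt_trans (Finset.mem_range.1 hl) hj')).2
              linarith
      exact (pow_le_pow_of_le_one (by norm_num) (by norm_num) (by omega)).trans h3
    exact mul_le_mul (mem_A h hj').1 h2 (by positivity) (le_trans (by norm_num) (mem_A h hj').1)
  have h2 := Set.encard_le_encard h1
  rw [Set.encard_coe_eq_coe_finsetCard, Finset.card_range] at h2
  exact h2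

end PDpos773

open Pool.Agent.TH268.PD Pool.Agent.TH268.PD.Lim PDpos773 in
theorem pd_pos (i : ℕ) (m : ℝ) (hm : 0 < m) : ∃ ε c : ℝ, 0 < ε ∧ 0 < c ∧
    c ≤ Pool.Agent.TH268.PD.pdm (fun u : Fin (i + 1) → ℝ =>
      min 1 (max 0 ((m * u (Fin.last i)) / ε - 1))) := by
  set a : ℝ := (1 / 4 : ℝ) * (1 / 2) ^ i with ha
  have ha0 : 0 < a := by positivity
  refine ⟨m * a / 2, (mu (A i)).toReal, by positivity,
    ENNReal.toReal_pos (A_pos i).ne' (measure_ne_top _ _), ?_⟩
  unfold pdm
  set F : (ℕ → unitInterval) → ℝ := fun U => min 1 (max 0 ((m * tY U i) / (m * a / 2) - 1)) with hF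
  have hFm : Measurable F := by
    have h1 := measurable_tY i
    exact measurable_const.min (measurable_const.max
      (((measurable_const.mul h1).div_const _).sub measurable_const))
  have hF0 : ∀ U, 0 ≤ F U := fun U => le_min zero_le_one (le_max_left _ _)
  have hF1 : ∀ U, F U ≤ 1 := fun U => min_le_left _ _
  have hFi : Integrable F mu := Integrable.of_bound hFm.aestronglyMeasurable 1
    (Filter.Eventually.of_forall fun U => by
      rw [Real.norm_eq_abs, abs_of_nonneg (hF0 U)]; exact hF1 U)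
  have hFA : ∀ U ∈ A i, F U = 1 := by
    intro U hU
    have h1 := stick_ge hU
    have h2 : 1 ≤ (m * tY U i) / (m * a / 2) - 1 := by
      have h3 : 2 ≤ (m * tY U i) / (m * a / 2) := by
        rw [le_div_iff₀ (by positivity)]
        have : m * a ≤ m * tY U i := mul_le_mul_of_nonneg_left h1 hm.le
        linarith
      linarith
    show min 1 (max 0 ((m * tY U i) / (m * a / 2) - 1)) = 1
    exact min_eq_left (h2.trans (le_max_right _ _))
  have h1 : (mu (A i)).toReal = ∫ U, (A i).indicator (fun _ => (1 : ℝ)) U ∂mu := by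
    rw [integral_indicator_const _ (A_meas i), smul_eq_mul, mul_one]
    rfl
  have h2 : ∫ U, (A i).indicator (fun _ => (1 : ℝ)) U ∂mu ≤ ∫ U, F U ∂mu := by
    refine integral_mono ((integrable_const 1).indicator (A_meas i)) hFi fun U => ?_
    by_cases hU : U ∈ A i
    · rw [Set.indicator_of_mem hU, hFA U hU]
    · rw [Set.indicator_of_notMem hU]
      exact hF0 U
  rw [h1]
  exact h2

end Pool.Agent.N795.LN
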